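import Mathlib

/-!
MP_a67be6_gt, Q1 (disproof).  A product of uncountably many, but at most continuum many, countable
discrete spaces with at least two points is e-separable but not E-separable.
-/

namespace Pool.Agent.Results.MP_a67be6_gt.NotESeparable

open Set Topology Filter Cardinal

universe u v

/-- Closed discrete subsets. -/
def ClosedDiscrete {X : Type*} [TopologicalSpace X] (A : Set X) : Prop :=
  IsClosed A ∧ DiscreteTopology A

/-- `X` is e-separable: it has a dense σ-closed-discrete subset. -/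
def LowerESeparable (X : Type*) [TopologicalSpace X] : Prop :=
  ∃ A : ℕ → Set X, (∀ n, ClosedDiscrete (A n)) ∧ Dense (⋃ n, A n)

/-- `X` is E-separable. -/
def UpperESeparable (X : Type*) [TopologicalSpace X] : Prop :=
  ∀ D : ℕ → Set X, (∀ n, Dense (D n)) →
    ∃ E : ℕ → Set X, (∀ n, E n ⊆ D n ∧ ClosedDiscrete (E n)) ∧ Dense (⋃ n, E n)

variable {I : Type u} {D : I → Type v} [∀ i, TopologicalSpace (D i)]
  [∀ i, DiscreteTopology (D i)]

omit [∀ i, DiscreteTopology (D i)] in
/-- Basic neighbourhoods in products of discrete spaces. -/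
lemma mem_nhds_pi_discrete {x : ∀ i, D i} {U : Set (∀ i, D i)} (hU : U ∈ 𝓝 x) :
    ∃ F : Finset I, ∀ y : ∀ i, D i, (∀ i ∈ F, y i = x i) → y ∈ U := by
  obtain ⟨V, hVU, hV, hxV⟩ := mem_nhds_iff.1 hU
  obtain ⟨F, u, hu, hF⟩ := isOpen_pi_iff.1 hV x hxV
  refine ⟨F, fun y hy => hVU (hF fun i hi => ?_)⟩
  rw [hy i hi]
  exact (hu i hi).2

lemma box_mem_nhds (x : ∀ i, D i) (F : Finset I) :
    {y : ∀ i, D i | ∀ i ∈ F, y i = x i} ∈ 𝓝 x := by
  have h : {y : ∀ i, D i | ∀ i ∈ F, y i = x i} = (F : Set I).pi fun i => {x i} := by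
    ext y; simp [Set.mem_pi]
  rw [h]
  exact (isOpen_set_pi F.finite_toSet fun i _ => isOpen_discrete _).mem_nhds (by simp [Set.mem_pi])

/-! ### Separability of small products -/

/-- Hewitt–Marczewski–Pondiczery for countable discrete factors. -/
lemma exists_countable_dense [∀ i, Countable (D i)] [∀ i, Nonempty (D i)]
    (hI : #I ≤ 𝔠) :
    ∃ S : Set (∀ i, D i), S.Countable ∧ Dense S := by
  classical
  have hI' : Cardinal.lift.{0} #I ≤ Cardinal.lift.{u} #(ℕ → Bool) := by
    have : #(ℕ → Bool) = 𝔠 := by simp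
    rw [this, Cardinal.lift_continuum, Cardinal.lift_uzero]
    exact hI
  obtain ⟨ι⟩ := Cardinal.lift_mk_le'.1 hI'
  choose g hg using fun i => exists_surjective_nat (D i)
  let x : (Σ n : ℕ, ((Fin n → Bool) → ℕ)) → ∀ i, D i :=
    fun a i => g i (a.2 fun k => ι i k)
  refine ⟨range x, countable_range x, ?_⟩
  intro p
  rw [mem_closure_iff_nhds]
  intro U hU
  obtain ⟨F, hF⟩ := mem_nhds_pi_discrete hU
  -- a level separating the points of `F`
  have hsep : ∃ n : ℕ, ∀ i ∈ F, ∀ j ∈ F, (∀ k < n, ι i k = ι j k) → i = j := by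
    have h1 : ∀ i j : I, ∃ n : ℕ, (∀ k < n, ι i k = ι j k) → i = j := by
      intro i j
      by_cases hij : i = j
      · exact ⟨0, fun _ => hij⟩
      · have : ι i ≠ ι j := fun h => hij (ι.injective h)
        obtain ⟨k, hk⟩ := Function.ne_iff.1 this
        exact ⟨k + 1, fun h => absurd (h k (Nat.lt_succ_self k)) hk⟩
    choose N hN using h1
    refine ⟨(F ×ˢ F).sup fun q => N q.1 q.2, fun i hi j hj h => hN i j fun k hk => h k ?_⟩
    exact lt_of_lt_of_le hk (Finset.le_sup (f := fun q : I × I => N q.1 q.2)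
      (Finset.mem_product.2 ⟨hi, hj⟩ : (i, j) ∈ F ×ˢ F))
  obtain ⟨n, hn⟩ := hsep
  choose m hm using fun i => hg i (p i)
  let f : (Fin n → Bool) → ℕ := fun s =>
    if h : ∃ i ∈ F, (fun k : Fin n => ι i k) = s then m h.choose else 0
  refine ⟨x ⟨n, f⟩, hF _ fun i hi => ?_, ⟨_, rfl⟩⟩
  have hex : ∃ j ∈ F, (fun k : Fin n => ι j k) = fun k : Fin n => ι i k := ⟨i, hi, rfl⟩
  have hfi : f (fun k : Fin n => ι i k) = m hex.choose := dif_pos hex
  have hj : hex.choose = i := by
    obtain ⟨h1, h2⟩ := hex.choose_spec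
    exact hn _ h1 _ hi fun k hk => congrFun h2 ⟨k, hk⟩
  change g i (f fun k : Fin n => ι i k) = p i
  rw [hfi, hj]
  exact hm i

/-! ### The Σ-product -/

/-- The Σ-product around the point `z`. -/
def Sig (z : ∀ i, D i) : Set (∀ i, D i) := {x | {i | x i ≠ z i}.Countable}

lemma dense_sig (z : ∀ i, D i) : Dense (Sig z) := by
  classical
  intro p
  rw [mem_closure_iff_nhds]
  intro U hU
  obtain ⟨F, hF⟩ := mem_nhds_pi_discrete hU
  refine ⟨fun i => if i ∈ F then p i else z i, hF _ fun i hi => by simp [hi], ?_⟩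
  refine F.countable_toSet.mono fun i hi => ?_
  by_contra h
  have h' : i ∉ F := h
  simp [h'] at hi

/-- Closing off. -/
lemma closing_off (Φ : Finset I → Set I) (hΦ : ∀ F, (Φ F).Countable) :
    ∃ A : Set I, A.Countable ∧ ∀ F : Finset I, (F : Set I) ⊆ A → Φ F ⊆ A := by
  let step : Set I → Set I := fun A => A ∪ ⋃ F ∈ {F : Finset I | (F : Set I) ⊆ A}, Φ F
  let A : ℕ → Set I := fun n => step^[n] ∅
  have hsucc : ∀ n, A (n + 1) = step (A n) := fun n => Function.iterate_succ_apply' _ _ _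
  have hfin : ∀ B : Set I, B.Countable → {F : Finset I | (F : Set I) ⊆ B}.Countable := by
    intro B hB
    have h1 := Set.countable_ofPred_finite_subset hB
    refine (h1.preimage (f := fun F : Finset I => (F : Set I)) Finset.coe_injective).mono ?_
    intro F hF
    exact ⟨F.finite_toSet, hF⟩
  have hcount : ∀ n, (A n).Countable := by
    intro n
    induction n with
    | zero => exact countable_empty
    | succ n ih =>
      rw [hsucc]
      exact ih.union ((hfin _ ih).biUnion fun F _ => hΦ F)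
  have hmono : Monotone A := by
    refine monotone_nat_of_le_succ fun n => ?_
    rw [hsucc]
    exact subset_union_left
  refine ⟨⋃ n, A n, countable_iUnion hcount, fun F hF => ?_⟩
  have : ∃ n, (F : Set I) ⊆ A n := by
    have h1 : ∀ i ∈ F, ∃ n, i ∈ A n := fun i hi => mem_iUnion.1 (hF hi)
    choose! N hN using h1
    exact ⟨F.sup N, fun i hi => hmono (Finset.le_sup hi) (hN i hi)⟩
  obtain ⟨n, hn⟩ := this
  refine Subset.trans ?_ (subset_iUnion A (n + 1))
  rw [hsucc]
  exact Subset.trans (subset_biUnion_of_mem (u := Φ)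
    (show F ∈ {F : Finset I | (F : Set I) ⊆ A n} from hn)) subset_union_right

/-- Two-point selection. -/
lemma exists_small {α : Type*} (S : Set α) : ∃ T ⊆ S, T.Countable ∧
    (S.Nonempty → T.Nonempty) ∧ (S.Nontrivial → T.Nontrivial) := by
  by_cases h : S.Nontrivial
  · obtain ⟨x, hx, y, hy, hxy⟩ := h
    refine ⟨{x, y}, ?_, (countable_singleton y).insert x, fun _ => ⟨x, by simp⟩,
      fun _ => ⟨x, by simp, y, by simp, hxy⟩⟩
    rintro w (rfl | rfl)
    · exact hx
    · exact hy
  · exact ⟨S, Subset.rfl, (not_nontrivial_iff.1 h).countable, id, id⟩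

/-- Closed discrete subsets of `X = ∏ D i` contained in a Σ-product are countable. -/
lemma countable_of_closedDiscrete [∀ i, Countable (D i)] (z : ∀ i, D i) {E : Set (∀ i, D i)}
    (hEz : E ⊆ Sig z) (hE : ClosedDiscrete E) : E.Countable := by
  classical
  -- selected countable subsets
  have hsel : ∀ F : Finset I, ∃ W : Set (∀ i, D i), W ⊆ E ∧ W.Countable ∧
      ∀ e ∈ E, (W ∩ {y | ∀ i ∈ F, y i = e i}).Nonempty ∧
        ((E ∩ {y | ∀ i ∈ F, y i = e i}).Nontrivial →
          (W ∩ {y | ∀ i ∈ F, y i = e i}).Nontrivial) := by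
    intro F
    choose T hTS hTc hT1 hT2 using fun q : (∀ i : F, D i) =>
      exists_small (E ∩ {y | ∀ i (h : i ∈ F), y i = q ⟨i, h⟩})
    refine ⟨⋃ q, T q, iUnion_subset fun q => (hTS q).trans inter_subset_left,
      countable_iUnion hTc, fun e he => ?_⟩
    have hsub : T (fun i => e i) ⊆ (⋃ q, T q) ∩ {y | ∀ i ∈ F, y i = e i} :=
      subset_inter (subset_iUnion T _) ((hTS _).trans inter_subset_right)
    exact ⟨(hT1 (fun i => e i) ⟨e, he, fun _ _ => rfl⟩).mono hsub,
      fun h => (hT2 (fun i => e i) h).mono hsub⟩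
  choose W hWE hWc hW using hsel
  obtain ⟨A, hAc, hA⟩ := closing_off (fun F => ⋃ u ∈ W F, {i | u i ≠ z i})
    (fun F => (hWc F).biUnion fun u hu => hEz (hWE F hu))
  -- the countable set `E'`
  let E' : Set (∀ i, D i) := ⋃ F ∈ {F : Finset I | (F : Set I) ⊆ A}, W F
  have hE'c : E'.Countable := by
    refine Countable.biUnion ?_ fun F _ => hWc F
    have h1 := Set.countable_ofPred_finite_subset hAc
    refine (h1.preimage (f := fun F : Finset I => (F : Set I)) Finset.coe_injective).mono ?_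
    intro F hF
    exact ⟨F.finite_toSet, hF⟩
  have hE'E : E' ⊆ E := iUnion₂_subset fun F _ => hWE F
  suffices h : E ⊆ E' from hE'c.mono h
  intro e he
  by_contra heE'
  let e' : ∀ i, D i := fun i => if i ∈ A then e i else z i
  -- points of `W F`, `F ⊆ A`, agree with `z` off `A`
  have hoff : ∀ F : Finset I, (F : Set I) ⊆ A → ∀ u ∈ W F, ∀ i ∉ A, u i = z i := by
    intro F hF u hu i hi
    by_contra h
    exact hi (hA F hF (mem_iUnion₂.2 ⟨u, hu, h⟩))
  -- near `e'` there is a point of `E'` different from `e'`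
  have key : ∀ G : Finset I, ∃ u ∈ E', (∀ i ∈ G, u i = e' i) ∧ (e' ∈ E → u ≠ e') := by
    intro G
    let F : Finset I := G.filter (· ∈ A)
    have hF : (F : Set I) ⊆ A := fun i hi => (Finset.mem_filter.1 hi).2
    have hagree : ∀ u ∈ W F ∩ {y | ∀ i ∈ F, y i = e i}, ∀ i ∈ G, u i = e' i := by
      rintro u ⟨huW, hu⟩ i hi
      by_cases hiA : i ∈ A
      · have : u i = e i := hu i (Finset.mem_filter.2 ⟨hi, hiA⟩)
        simp only [e', if_pos hiA, this]
      · simp only [e', if_neg hiA]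
        exact hoff F hF u huW i hiA
    have hmem : ∀ u ∈ W F ∩ {y | ∀ i ∈ F, y i = e i}, u ∈ E' := fun u hu =>
      mem_iUnion₂.2 ⟨F, hF, hu.1⟩
    by_cases he' : e' ∈ E
    · have hnt : (E ∩ {y | ∀ i ∈ F, y i = e i}).Nontrivial := by
        -- `e` and an element of `W F`
        obtain ⟨u, hu⟩ := (hW F e he).1
        refine ⟨e, ⟨he, fun _ _ => rfl⟩, u, ⟨hWE F hu.1, hu.2⟩, ?_⟩
        intro h
        exact heE' (h ▸ hmem u hu)
      obtain ⟨u, hu, v, hv, huv⟩ := (hW F e he).2 hnt
      by_cases h : u = e'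
      · exact ⟨v, hmem v hv, hagree v hv, fun _ h' => huv (h.trans h'.symm)⟩
      · exact ⟨u, hmem u hu, hagree u hu, fun _ => h⟩
    · obtain ⟨u, hu⟩ := (hW F e he).1
      exact ⟨u, hmem u hu, hagree u hu, fun h => absurd h he'⟩
  -- `e' ∈ E` as `E` is closed
  have he'E : e' ∈ E := by
    rw [← hE.1.closure_eq, mem_closure_iff_nhds]
    intro U hU
    obtain ⟨G, hG⟩ := mem_nhds_pi_discrete hU
    obtain ⟨u, hu, hu', -⟩ := key G
    exact ⟨u, hG u hu', hE'E hu⟩
  -- but `E` is discrete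
  have := hE.2
  have hiso : ∃ U ∈ 𝓝 e', U ∩ E = {e'} := by
    obtain ⟨U, hU, hUE⟩ := discreteTopology_subtype_iff'.1 hE.2 e' he'E
    exact ⟨U, hU.mem_nhds (by
      have : e' ∈ U ∩ E := by rw [hUE]; rfl
      exact this.1), hUE⟩
  obtain ⟨U, hU, hUE⟩ := hiso
  obtain ⟨G, hG⟩ := mem_nhds_pi_discrete hU
  obtain ⟨u, hu, hu', hne⟩ := key G
  have : u ∈ U ∩ E := ⟨hG u hu', hE'E hu⟩
  rw [hUE] at this
  exact hne he'E this

/-- A product of uncountably many countable discrete spaces with at least two points is not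
E-separable. -/
theorem not_upper [∀ i, Countable (D i)] [∀ i, Nontrivial (D i)] (hI : ℵ₀ < #I) :
    ¬ UpperESeparable (∀ i, D i) := by
  classical
  intro h
  choose z w hzw using fun i => exists_pair_ne (D i)
  obtain ⟨E, hE, hd⟩ := h (fun _ => Sig z) fun _ => dense_sig z
  have hc : (⋃ n, E n).Countable :=
    countable_iUnion fun n => countable_of_closedDiscrete z (hE n).1 (hE n).2
  let S : Set I := ⋃ u ∈ ⋃ n, E n, {i | u i ≠ z i}
  have hS : S.Countable := hc.biUnion fun u hu => by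
    obtain ⟨n, hn⟩ := mem_iUnion.1 hu
    exact (hE n).1 hn
  obtain ⟨i, hi⟩ : ∃ i, i ∉ S := by
    by_contra hcon
    push Not at hcon
    have hu : S = Set.univ := eq_univ_of_forall hcon
    rw [hu, countable_univ_iff] at hS
    exact absurd (Cardinal.mk_le_aleph0_iff.2 hS) (not_le.2 hI)
  have hbox := box_mem_nhds w {i}
  obtain ⟨u, hu1, hu2⟩ := mem_closure_iff_nhds.1 (hd w) _ hbox
  apply hi
  refine mem_iUnion₂.2 ⟨u, hu2, ?_⟩
  have : u i = w i := hu1 i (Finset.mem_singleton_self i)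
  change u i ≠ z i
  rw [this]
  exact (hzw i).symm

/-- A product of at most continuum many countable discrete spaces is e-separable. -/
theorem lower [∀ i, Countable (D i)] [∀ i, Nonempty (D i)] (hI : #I ≤ 𝔠) :
    LowerESeparable (∀ i, D i) := by
  obtain ⟨S, hS, hd⟩ := exists_countable_dense (D := D) hI
  have hne : S.Nonempty := hd.nonempty
  obtain ⟨f, hf⟩ := hS.exists_eq_range hne
  refine ⟨fun n => {f n}, fun n => ⟨isClosed_singleton, inferInstance⟩, ?_⟩
  rw [iUnion_singleton_eq_range, ← hf]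
  exact hd

/-- Q1 of MP_a67be6_gt is disproved: every product of at most continuum many, but uncountably many,
countable discrete spaces with at least two points (for instance `2^ω₁`, `ω^ω₁`, `ω^𝔠`) is
e-separable but not E-separable. -/
theorem result :
    (∃ (I : Type) (D : I → Type) (_ : ∀ i, TopologicalSpace (D i)),
      (∀ i, DiscreteTopology (D i)) ∧
      LowerESeparable (∀ i, D i) ∧ ¬ UpperESeparable (∀ i, D i)) ∧
    (∀ (I : Type u) (D : I → Type v) [∀ i, TopologicalSpace (D i)],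
      (∀ i, DiscreteTopology (D i)) → (∀ i, Countable (D i)) → (∀ i, Nontrivial (D i)) →
      ℵ₀ < #I → #I ≤ 𝔠 → LowerESeparable (∀ i, D i) ∧ ¬ UpperESeparable (∀ i, D i)) := by
  refine ⟨⟨ℝ, fun _ => ℕ, inferInstance, inferInstance, ?_, ?_⟩, ?_⟩
  · exact lower Cardinal.mk_real.le
  · exact not_upper (by rw [Cardinal.mk_real]; exact Cardinal.aleph0_lt_continuum)
  · intro I D _ h1 h2 h3 h4 h5
    exact ⟨lower h5, not_upper h4⟩

end Pool.Agent.Results.MP_a67be6_gt.NotESeparable
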